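import Pool.Agent.V5helper7.RK.Main2

/-!
# Lower irredundance of the three-dimensional rooks graph: `ir > (3/10) n ^ 2`

Every maximal irredundant set `S` of the graph `K_n □ K_n □ K_n`, `n ≥ 1`, has more than `(3/10) n ^ 2` elements.
(The domination number is `⌈n ^ 2 / 2⌉`, and the general inequality `ir > γ / 2` gives only `n ^ 2 / 4`.)

Proof. Let `u` be a vertex which is not dominated by `S`. As `S` is maximal, there is `v ∈ S` all of whose private
neighbours are adjacent to `u`. As `u` is not adjacent to `v`, they have at most two common neighbours, so `v` has at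
most two private neighbours. Let `w` be one of them, on the `i`-line of `v` (so `v` is the only element of `S` on this
line); then `u` lies on the `j`-line of `w` for a `j ≠ i`. The `i`-line of `u` does not meet `S`, so if the plane of `u` and
`v` contains `c` elements of `S` of the same kind (which lie on `c` different `i`-lines) then there are at most `n - c` such
`u`. By Cauchy-Schwarz the `t` elements `v` of this kind have together at most `2 n t - 2 t ^ 2 / (3 n)` such `u`. The dominated
vertices are counted with the weight `1/2` for each of the elements of `S` which dominates it, and a further `1/2` for the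
private neighbours: `2 n ^ 3 ≤ 6 n (s - t) + 3 n t + 4 n t - 4 t ^ 2 / (3 n)` with `t ≤ s = |S|`, so `s > (3/10) n ^ 2`.
-/

set_option autoImplicit false

namespace Pool.Agent.Results.MP_41d1ec_co.ThreeTenths

/-- the three-dimensional rooks graph: two cells are adjacent iff they differ in exactly one coordinate -/
def rooks (n : ℕ) : SimpleGraph (Fin 3 → Fin n) where
  Adj x y := hammingDist x y = 1
  symm := ⟨fun x y h => by rw [hammingDist_comm]; exact h⟩
  loopless := ⟨fun x h => by rw [hammingDist_self] at h; exact absurd h (by norm_num)⟩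

/-- every `v ∈ S` has a private neighbour: a `w` in the closed neighbourhood of `v` and of no other element of `S` -/
def Irredundant {V : Type} (G : SimpleGraph V) (S : Finset V) : Prop :=
  ∀ v ∈ S, ∃ w : V, (w = v ∨ G.Adj v w) ∧ ∀ u ∈ S, u ≠ v → ¬ (w = u ∨ G.Adj u w)

/-- maximal irredundant sets -/
def MaximalIrredundant {V : Type} (G : SimpleGraph V) (S : Finset V) : Prop :=
  Irredundant G S ∧ ∀ T : Finset V, S ⊆ T → Irredundant G T → T = S

lemma mem_iff (m : ℕ) (v w : Fin 3 → Fin (m + 1)) :
    (w = v ∨ (rooks (m + 1)).Adj v w) ↔ w ∈ Pool.Agent.V5helper7.RK.N v := by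
  rw [Pool.Agent.V5helper7.RK.mem_N]
  show (w = v ∨ hammingDist v w = 1) ↔ hammingDist v w ≤ 1
  constructor
  · rintro (h | h)
    · rw [h, hammingDist_self]; exact Nat.zero_le _
    · exact h.le
  · intro h
    rcases Nat.le_one_iff_eq_zero_or_eq_one.1 h with h0 | h1
    · exact Or.inl (hammingDist_eq_zero.1 h0).symm
    · exact Or.inr h1

lemma irr_iff (m : ℕ) (S : Finset (Fin 3 → Fin (m + 1))) :
    Irredundant (rooks (m + 1)) S ↔ Pool.Agent.V5helper7.RK.Irr S := by
  unfold Irredundant Pool.Agent.V5helper7.RK.Irr
  simp only [mem_iff]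

/-- Every maximal irredundant set of the rooks graph of the `n × n × n` board has more than `(3/10) n ^ 2` elements. -/
theorem result (n : ℕ) (hn : 1 ≤ n) (S : Finset (Fin 3 → Fin n)) (hS : MaximalIrredundant (rooks n) S) :
    3 * n ^ 2 < 10 * S.card := by
  obtain ⟨m, rfl⟩ : ∃ m, n = m + 1 := ⟨n - 1, by omega⟩
  exact Pool.Agent.V5helper7.RK.count2 S ((irr_iff m S).1 hS.1)
    (fun T hT hI => hS.2 T hT ((irr_iff m T).2 hI))

end Pool.Agent.Results.MP_41d1ec_co.ThreeTenths
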